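import Pool.Agent.N912.RC.Stm
import Pool.Agent.Y773.IQ.Cl

/-!
# Project RC: functions of the ray classes are sums of ray class characters
-/

set_option autoImplicit false

namespace Pool.Agent.N603.RC

open Finset

section dual

variable {C : Type} [CommGroup C]

lemma sum_dual [Finite C] [Fintype (C →* ℂˣ)] {c : C} (hc : c ≠ 1) : ∑ χ : C →* ℂˣ, ((χ c : ℂˣ) : ℂ) = 0 := by
  have : NeZero (Monoid.exponent C) := ⟨Monoid.exponent_ne_zero_of_finite⟩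
  obtain ⟨ψ, hψ⟩ := CommGroup.exists_apply_ne_one_of_hasEnoughRootsOfUnity C ℂ hc
  have h : ((ψ c : ℂˣ) : ℂ) * ∑ χ : C →* ℂˣ, ((χ c : ℂˣ) : ℂ) = ∑ χ : C →* ℂˣ, ((χ c : ℂˣ) : ℂ) := by
    rw [mul_sum]
    refine Fintype.sum_equiv (Equiv.mulLeft ψ) _ _ fun χ => ?_
    rw [Equiv.coe_mulLeft, MonoidHom.mul_apply, Units.val_mul]
  have h1 : ((ψ c : ℂˣ) : ℂ) ≠ 1 := fun h2 => hψ (Units.ext h2)
  by_contra h0
  exact h1 (mul_right_cancel₀ h0 (h.trans (one_mul _).symm))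

lemma card_dual' [Fintype C] [Fintype (C →* ℂˣ)] : Fintype.card (C →* ℂˣ) = Fintype.card C := by
  have : NeZero (Monoid.exponent C) := ⟨Monoid.exponent_ne_zero_of_finite⟩
  have h := CommGroup.card_monoidHom_of_hasEnoughRootsOfUnity C ℂ
  rwa [Nat.card_eq_fintype_card, Nat.card_eq_fintype_card] at h

/-- the coefficients -/
noncomputable def coe [Fintype C] (Φ : C → ℂ) (χ : C →* ℂˣ) : ℂ :=
  (∑ d, Φ d * ((χ d⁻¹ : ℂˣ) : ℂ)) / Fintype.card C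

lemma expand [Fintype C] [Fintype (C →* ℂˣ)] (Φ : C → ℂ) (c : C) :
    Φ c = ∑ χ : C →* ℂˣ, coe Φ χ * ((χ c : ℂˣ) : ℂ) := by
  classical
  have hcard : (Fintype.card C : ℂ) ≠ 0 := by
    exact_mod_cast Fintype.card_ne_zero
  have h1 : ∀ d : C, ∑ χ : C →* ℂˣ, ((χ d⁻¹ : ℂˣ) : ℂ) * ((χ c : ℂˣ) : ℂ) =
      if d = c then (Fintype.card C : ℂ) else 0 := by
    intro d
    have h2 : ∀ χ : C →* ℂˣ, ((χ d⁻¹ : ℂˣ) : ℂ) * ((χ c : ℂˣ) : ℂ) = ((χ (d⁻¹ * c) : ℂˣ) : ℂ) := by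
      intro χ
      rw [map_mul, Units.val_mul]
    simp_rw [h2]
    split_ifs with h
    · rw [h, inv_mul_cancel]
      simp only [map_one, Units.val_one, sum_const, card_univ, nsmul_eq_mul, mul_one]
      rw [card_dual']
    · refine sum_dual fun h3 => h ?_
      exact inv_mul_eq_one.mp h3
  have h3 : ∑ χ : C →* ℂˣ, coe Φ χ * ((χ c : ℂˣ) : ℂ) = (∑ d, Φ d * ∑ χ : C →* ℂˣ, ((χ d⁻¹ : ℂˣ) : ℂ) * ((χ c : ℂˣ) : ℂ)) /
      Fintype.card C := by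
    unfold coe
    simp_rw [mul_sum, div_mul_eq_mul_div, sum_mul]
    rw [← sum_div, sum_comm]
    congr 1
    refine sum_congr rfl fun d _ => sum_congr rfl fun χ _ => ?_
    ring
  rw [h3]
  simp_rw [h1, mul_ite, mul_zero]
  rw [sum_ite_eq' univ c, if_pos (mem_univ c), mul_div_cancel_right₀ _ hcard]

/-- the characters, the trivial one first -/
lemma enum [Finite C] : ∃ (n : ℕ) (e : Fin (n + 1) ≃ (C →* ℂˣ)), e 0 = 1 := by
  classical
  have : NeZero (Monoid.exponent C) := ⟨Monoid.exponent_ne_zero_of_finite⟩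
  have hf : Finite (C →* ℂˣ) := by
    refine Nat.finite_of_card_ne_zero ?_
    rw [CommGroup.card_monoidHom_of_hasEnoughRootsOfUnity C ℂ]
    exact Nat.card_pos.ne'
  obtain ⟨m, ⟨e⟩⟩ := Finite.exists_equiv_fin (C →* ℂˣ)
  obtain ⟨n, rfl⟩ : ∃ n, m = n + 1 := by
    cases m with
    | zero => exact (e 1).elim0
    | succ n => exact ⟨n, rfl⟩
  refine ⟨n, e.symm.trans (Equiv.swap (e.symm 0) 1), ?_⟩
  rw [Equiv.trans_apply, Equiv.swap_apply_left]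

end dual

open NumberField
open Pool.Agent.N912.RC (CF S_RC3)
open Pool.Agent.Y773.IQ (T1 T1_cop pi1 pi1_coe ofM' ofM'_pos ofM'_supp exists_rep cls_card_le cop_one ne_zero_of_cop)
open Pool.Agent.Y767 (Mq Mq_cop Mq_cancel Cls cls cls_eq cls_pi)
open Pool.Agent.Y773.G (IsModChar)

section

variable {K : Type} [Field K] [NumberField K] {𝔪 : Ideal (𝓞 K)}

/-- the character of the ideals -/
noncomputable def chi (htop : 𝔪 ≠ ⊤) (χ : Cls (pi1 htop) →* ℂˣ) : Ideal (𝓞 K) →*₀ ℂ :=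
  ofM' htop (χ.comp (cls (pi1 htop)))

lemma chi_pos (htop : 𝔪 ≠ ⊤) (χ : Cls (pi1 htop) →* ℂˣ) (𝔞 : Mq 𝔪) :
    chi htop χ (𝔞 : Ideal (𝓞 K)) = ((χ (cls (pi1 htop) 𝔞) : ℂˣ) : ℂ) :=
  ofM'_pos htop _ (Mq_cop 𝔞)

lemma chi_mod (hbot : 𝔪 ≠ ⊥) (htop : 𝔪 ≠ ⊤) (χ : Cls (pi1 htop) →* ℂˣ) :
    IsModChar 𝔪 (fun _ => 0) (chi htop χ) := by
  refine ⟨hbot, htop, fun _ => Nat.zero_le _, fun _ _ => rfl, fun 𝔞 => ofM'_supp htop _ 𝔞, fun x hx hx1 => ?_⟩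
  have h1 := chi_pos htop χ (pi1 htop ⟨x, hx1⟩)
  rw [cls_pi, map_one, Units.val_one, pi1_coe] at h1
  rw [h1]
  unfold Pool.Agent.Y773.G.sg
  simp

lemma F_cls (htop : 𝔪 ≠ ⊤) {F : Ideal (𝓞 K) → ℂ} (hF : CF 𝔪 F) {𝔞 𝔟 : Mq 𝔪}
    (h : cls (pi1 htop) 𝔞 = cls (pi1 htop) 𝔟) : F (𝔞 : Ideal (𝓞 K)) = F (𝔟 : Ideal (𝓞 K)) := by
  have := Mq_cancel htop
  obtain ⟨x, y, hxy⟩ := cls_eq h
  have h1 := congrArg Subtype.val hxy
  rw [Submonoid.coe_mul, Submonoid.coe_mul, pi1_coe, pi1_coe] at h1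
  exact hF.cls _ _ (x : 𝓞 K) (y : 𝓞 K) (Mq_cop 𝔞) (Mq_cop 𝔟) (ne_zero_of_cop htop (T1_cop x))
    (ne_zero_of_cop htop (T1_cop y)) x.2 y.2 h1

end

theorem rc3 : S_RC3 := by
  classical
  intro K _ _ _ _ 𝔪 hbot htop F hF
  have hfin := (cls_card_le hbot htop).1
  let _ := Fintype.ofFinite (Cls (pi1 htop))
  obtain ⟨n, e, he⟩ := enum (C := Cls (pi1 htop))
  let _ : Fintype (Cls (pi1 htop) →* ℂˣ) := Fintype.ofEquiv _ e
  choose rep hrep using exists_rep htop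
  obtain ⟨Φ, hΦ⟩ : ∃ Φ : Cls (pi1 htop) → ℂ, ∀ c, Φ c = F (rep c : Ideal (𝓞 K)) := ⟨_, fun _ => rfl⟩
  have hFΦ : ∀ 𝔞 : Mq 𝔪, F (𝔞 : Ideal (𝓞 K)) = Φ (cls (pi1 htop) 𝔞) := by
    intro 𝔞
    rw [hΦ]
    exact F_cls htop hF (hrep _).symm
  refine ⟨n, fun i => chi htop (e i), fun i => coe Φ (e i), fun i => chi_mod hbot htop _, ?_, ?_, ?_, ?_⟩
  · intro 𝔞 h𝔞
    show chi htop (e 0) 𝔞 = 1
    have h1 := chi_pos htop (e 0) ⟨𝔞, h𝔞⟩
    rw [he, MonoidHom.one_apply, Units.val_one] at h1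
    rw [he]
    exact h1
  · intro i hi
    have hne : e i ≠ 1 := by
      intro h
      apply hi
      apply e.injective
      rw [h, he]
    obtain ⟨c, hc⟩ : ∃ c, e i c ≠ 1 := by
      by_contra hcon
      push Not at hcon
      exact hne (MonoidHom.ext hcon)
    refine ⟨(rep c : Ideal (𝓞 K)), Mq_cop (rep c), ?_⟩
    show chi htop (e i) _ ≠ 1
    rw [chi_pos htop (e i) (rep c), hrep]
    intro h
    exact hc (Units.ext h)
  · intro 𝔞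
    by_cases h𝔞 : IsCoprime 𝔞 𝔪
    · have h1 := hFΦ ⟨𝔞, h𝔞⟩
      have h2 : F 𝔞 = Φ (cls (pi1 htop) ⟨𝔞, h𝔞⟩) := h1
      rw [h2, expand Φ]
      refine (Fintype.sum_equiv e _ _ fun i => ?_).symm
      have h3 := chi_pos htop (e i) ⟨𝔞, h𝔞⟩
      show coe Φ (e i) * chi htop (e i) 𝔞 = _
      rw [← h3]
    · rw [hF.supp 𝔞 h𝔞]
      refine (Finset.sum_eq_zero fun i _ => ?_).symm
      have h3 : chi htop (e i) 𝔞 = 0 := by
        by_contra h4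
        exact h𝔞 ((ofM'_supp htop _ 𝔞).mp h4)
      show coe Φ (e i) * chi htop (e i) 𝔞 = 0
      rw [h3, mul_zero]
  · intro hpos hone
    show 0 < (coe Φ (e 0)).re ∧ (coe Φ (e 0)).im = 0
    have hcard : (0:ℝ) < Fintype.card (Cls (pi1 htop)) := by exact_mod_cast Fintype.card_pos
    have h1 : coe Φ (e 0) = (((∑ d, (Φ d).re) / Fintype.card (Cls (pi1 htop)) : ℝ) : ℂ) := by
      unfold coe
      rw [he]
      simp only [MonoidHom.one_apply, Units.val_one, mul_one]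
      push_cast
      congr 1
      refine Finset.sum_congr rfl fun d _ => ?_
      apply Complex.ext
      · rw [Complex.ofReal_re]
      · rw [Complex.ofReal_im, hΦ]
        exact (hpos _).2
    rw [h1, Complex.ofReal_re, Complex.ofReal_im]
    refine ⟨div_pos ?_ hcard, rfl⟩
    have h2 : Φ 1 = F ⊤ := by
      have h3 := hFΦ 1
      rw [map_one, Submonoid.coe_one, Ideal.one_eq_top] at h3
      exact h3.symm
    refine Finset.sum_pos' (fun d _ => ?_) ⟨1, Finset.mem_univ _, ?_⟩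
    · rw [hΦ]
      exact (hpos _).1
    · rw [h2]
      refine lt_of_le_of_ne (hpos ⊤).1 fun h4 => hone ?_
      exact Complex.ext h4.symm (hpos ⊤).2

end Pool.Agent.N603.RC
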